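import Pool.Agent.helper90.DH.SpecI

/-!
# d2:iGPH (MP_5823cb_al): all gaps from the history (helper99)
-/

set_option autoImplicit false

open Filter Topology MeasureTheory
open scoped commutatorElement

namespace Pool.Agent.helper90.DH

open Pool.Agent.helper64.D2

theorem GPH_nsq (f : ℝ → ℝ) : 0 ≤ nsq f := integral_nonneg (fun x => sq_nonneg (f x))

theorem GPH_mono {q m φ : ℕ} {c : ℕ → DD} {s : ℕ} {lam lam' : ℝ} (h0 : 0 ≤ lam) (h : lam ≤ lam') (hF : FG q m φ c s lam) :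
    FG q m φ c s lam' := by
  intro f h1 h2 h3
  refine (hF f h1 h2 h3).trans ?_
  exact mul_le_mul_of_nonneg_right (pow_le_pow_left₀ h0 h 2) (GPH_nsq f)

theorem GPH (hSJM : SJM_stmt) (hDRF : DRF_stmt) : GPH_stmt := by
  intro KB KP KG hKB hKP hKG hPERT hGALL th δ m0 w0 ρ T cs hw0 hδ hNB hHIS s hs1 hs2
  obtain ⟨-, -, -, hbig⟩ := hNB
  set s0 : ℕ := ρ ^ 2 with hs0
  set M : ℕ := 3 * w0 * 2 ^ w0 with hM
  have h1000 : 1000 ≤ s0 := by omega
  obtain ⟨hsj0, -, -, -, hsjm, -, hsjg⟩ := hSJM s0 h1000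
  obtain ⟨hdrf, -, -, -, -⟩ := hDRF w0 s0 hbig
  have hpw : 2 ^ w0 ≤ M := by
    rw [hM]
    exact Nat.le_mul_of_pos_left _ (by omega)
  have h4 : 4 ^ w0 ≤ ρ ^ 4 := by
    have h1 : 2 ^ w0 ≤ s0 := by omega
    calc 4 ^ w0 = (2 ^ w0) ^ 2 := by rw [← pow_mul, mul_comm w0 2, pow_mul]; norm_num
      _ ≤ s0 ^ 2 := Nat.pow_le_pow_left h1 2
      _ = ρ ^ 4 := by rw [hs0]; ring
  have hamp : ∀ t φ, amp w0 s0 (t + 1) φ = sj s0 (t + 1) + 3 * w0 * φ := fun t φ => by simp [amp]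
  have hφM : ∀ φ, φ < 2 ^ w0 → 3 * w0 * φ + 3 * w0 ≤ M := by
    intro φ hφ
    calc 3 * w0 * φ + 3 * w0 = 3 * w0 * (φ + 1) := by ring
      _ ≤ 3 * w0 * 2 ^ w0 := Nat.mul_le_mul_left _ hφ
  have hp : (0 : ℝ) < 2 ^ w0 := by positivity
  have hlam0 : (0 : ℝ) ≤ KB / 2 ^ w0 := by positivity
  have hlamle : KB / 2 ^ w0 ≤ (KB + 2 * KP) / 2 ^ w0 := by
    apply div_le_div_of_nonneg_right _ hp.le
    linarith
  -- the exceptional families
  set Ex : ℕ → Prop := fun φ => ∃ t, s < sj s0 (t + 1) + 3 * w0 * φ + w0 ∧ sj s0 (t + 1) + 3 * w0 * φ < s + 2 * w0 with hEx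
  have huniq : ∀ φ φ', φ < 2 ^ w0 → φ' < 2 ^ w0 → Ex φ → Ex φ' → φ = φ' := by
    rintro φ φ' hφ hφ' ⟨t, h1, h2⟩ ⟨t', h1', h2'⟩
    have key : ∀ (a b α β : ℕ), α < 2 ^ w0 → β < 2 ^ w0 → a < b → sj s0 (b + 1) + 3 * w0 * β < s + 2 * w0 →
        s < sj s0 (a + 1) + 3 * w0 * α + w0 → False := by
      intro a b α β hα hβ hab h3 h4
      have h5 := hsjg (a + 1)
      have h6 := hsjm (a + 1 + 1) (b + 1) (by omega)
      have h7 := hφM α hα
      omega
    rcases lt_trichotomy t t' with h | h | h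
    · exact (key t t' φ φ' hφ hφ' h h2' h1).elim
    · subst h
      rcases lt_trichotomy φ φ' with h | h | h
      · exfalso
        have h3 : 3 * w0 * (φ + 1) ≤ 3 * w0 * φ' := Nat.mul_le_mul_left _ h
        have h4 : 3 * w0 * (φ + 1) = 3 * w0 * φ + 3 * w0 := by ring
        omega
      · exact h
      · exfalso
        have h3 : 3 * w0 * (φ' + 1) ≤ 3 * w0 * φ := Nat.mul_le_mul_left _ h
        have h4 : 3 * w0 * (φ' + 1) = 3 * w0 * φ' + 3 * w0 := by ring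
        omega
    · exact (key t' t φ' φ hφ' hφ h h2 h1').elim
  -- the families which are not exceptional
  have hgood : ∀ φ, φ < 2 ^ w0 → ¬ Ex φ → FG (ρ ^ 4) (2 ^ w0) φ (cs T) s ((KB + 2 * KP) / 2 ^ w0) := by
    intro φ hφ hnex
    have hP0 : amp w0 s0 0 φ + w0 ≤ s := by
      have : amp w0 s0 0 φ = s0 - w0 := by simp [amp]
      omega
    set t : ℕ := Nat.findGreatest (fun t => amp w0 s0 t φ + w0 ≤ s) T with ht
    have hPt : amp w0 s0 t φ + w0 ≤ s := Nat.findGreatest_spec (P := fun t => amp w0 s0 t φ + w0 ≤ s) (Nat.zero_le T) hP0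
    have htT : t ≤ T := Nat.findGreatest_le T
    obtain ⟨⟨hFG, -, -⟩, hmap⟩ := hHIS t htT
    rcases Nat.lt_or_ge t T with hlt | hge
    · have hnP : ¬ (amp w0 s0 (t + 1) φ + w0 ≤ s) := by
        have := Nat.findGreatest_is_greatest (P := fun t => amp w0 s0 t φ + w0 ≤ s) (n := T) (k := t + 1) (by omega) (by omega)
        exact this
      rw [hamp] at hnP
      have hφM' := hφM φ hφ
      have hF := hFG φ hφ s hPt (by show s ≤ sj s0 (t + 1) + M; omega)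
      have hfar : s + 2 * w0 ≤ sj s0 (t + 1) + 3 * w0 * φ := by
        by_contra hcon
        exact hnex ⟨t, by omega, by omega⟩
      have hη0 : (0 : ℝ) ≤ 4 / 2 ^ (2 * w0) := by positivity
      have hη1 : (4 : ℝ) / 2 ^ (2 * w0) ≤ 1 := by
        rw [div_le_one (by positivity)]
        calc (4 : ℝ) = 2 ^ 2 := by norm_num
          _ ≤ 2 ^ (2 * w0) := pow_le_pow_right₀ (by norm_num) (by omega)
      have hSz : ∀ i < ρ ^ 4, Sz (cs t i) (1 / 100) ∧ Sz (cs T i) (1 / 100) := by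
        intro i hi
        constructor
        · exact fun x => ((hmap i hi).1 x).trans hδ
        · exact fun x => (((hHIS T le_rfl).2 i hi).1 x).trans hδ
      have hdist : ∀ i < ρ ^ 4, i % 2 ^ w0 = φ → ∀ x, |ev (cs T i) x - ev (cs t i) x| ≤ 4 / 2 ^ (2 * w0) / 2 ^ s := by
        intro i hi hiφ x
        have h1 := (hmap i hi).2.2 T htT le_rfl x
        rw [hiφ] at h1
        refine h1.trans ((hdrf t T φ).trans ?_)
        have e3 : (4 : ℝ) / 2 ^ (2 * w0) / 2 ^ s = 4 / 2 ^ (2 * w0 + s) := by rw [div_div, ← pow_add]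
        rw [hamp, e3]
        apply div_le_div₀ (by norm_num) (by norm_num) (by positivity)
        exact pow_le_pow_right₀ (by norm_num) (by omega)
      have hF2 := hPERT (ρ ^ 4) (2 ^ w0) φ (cs t) (cs T) s (KB / 2 ^ w0) (4 / 2 ^ (2 * w0)) hSz hlam0 hη0 hη1 hdist hF
      have hsq : √((4 : ℝ) / 2 ^ (2 * w0)) = 2 / 2 ^ w0 := by
        have : (4 : ℝ) / 2 ^ (2 * w0) = (2 / 2 ^ w0) ^ 2 := by
          rw [div_pow, ← pow_mul, mul_comm w0 2]
          norm_num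
        rw [this, Real.sqrt_sq (by positivity)]
      rw [hsq] at hF2
      have e : KB / 2 ^ w0 + KP * (2 / 2 ^ w0) = (KB + 2 * KP) / 2 ^ w0 := by ring
      rwa [e] at hF2
    · have hTt : t = T := le_antisymm htT hge
      have hF := hFG φ hφ s hPt (by rw [hTt]; show s ≤ sj s0 (T + 1) + M; omega)
      rw [hTt] at hF
      exact GPH_mono hlam0 hlamle hF
  have hlam : (0 : ℝ) ≤ (KB + 2 * KP) / 2 ^ w0 := hlam0.trans hlamle
  have hfin := hGALL (ρ ^ 4) w0 (cs T) s ((KB + 2 * KP) / 2 ^ w0) h4 (fun i hi x => (((hHIS T le_rfl).2 i hi).1 x).trans hδ) hlam (by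
    by_cases hex : ∃ φ, φ < 2 ^ w0 ∧ Ex φ
    · obtain ⟨φ0, hφ0, hE0⟩ := hex
      exact ⟨φ0, fun φ hφ hne => hgood φ hφ (fun hE => hne (huniq φ φ0 hφ hφ0 hE hE0))⟩
    · exact ⟨0, fun φ hφ _ => hgood φ hφ (fun hE => hex ⟨φ, hφ, hE⟩)⟩)
  have e : KG * ((KB + 2 * KP) / 2 ^ w0 + 1 / 2 ^ w0) = KG * (KB + 2 * KP + 1) / 2 ^ w0 := by ring
  rwa [e] at hfin

end Pool.Agent.helper90.DH
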